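import Pool.Agent.Y817.WK.Stm

set_option autoImplicit false

namespace Pool.Agent.Y986.WK.Tri

open Pool.Agent.Y817.WK

variable (K : Type) [Field K] (S : Type) [CommRing S] [Algebra K S] (M : Type) [AddCommGroup M] [Module K M]

/-- The triangular algebra: middle part, rows, columns (two functionals), corner. -/
@[ext] structure TA where
  a : S
  d : Derivation K S S
  c : S
  f : S
  h : S
  pf : S →ₗ[K] M
  ph : S →ₗ[K] M
  m : M

variable {K S M}

namespace TA

instance : Zero (TA K S M) := ⟨⟨0, 0, 0, 0, 0, 0, 0, 0⟩⟩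
instance : Add (TA K S M) := ⟨fun x y => ⟨x.a + y.a, x.d + y.d, x.c + y.c, x.f + y.f, x.h + y.h, x.pf + y.pf,
  x.ph + y.ph, x.m + y.m⟩⟩
instance : Neg (TA K S M) := ⟨fun x => ⟨-x.a, -x.d, -x.c, -x.f, -x.h, -x.pf, -x.ph, -x.m⟩⟩
instance : Sub (TA K S M) := ⟨fun x y => ⟨x.a - y.a, x.d - y.d, x.c - y.c, x.f - y.f, x.h - y.h, x.pf - y.pf,
  x.ph - y.ph, x.m - y.m⟩⟩
instance : SMul K (TA K S M) := ⟨fun r x => ⟨r • x.a, r • x.d, r • x.c, r • x.f, r • x.h, r • x.pf, r • x.ph, r • x.m⟩⟩
/-- row (f,h) times (a,δ,c) is (f a, h a + δ f + c f); functional pair (pf, ph) pulled back along it -/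
instance : Mul (TA K S M) := ⟨fun x y => ⟨x.a * y.a, y.a • x.d + x.a • y.d, y.a * x.c + x.a * y.c + y.d x.a,
  x.f * y.a, x.h * y.a + y.d x.f + y.c * x.f,
  y.pf ∘ₗ LinearMap.mulLeft K x.a + y.ph ∘ₗ ((x.d : S →ₗ[K] S) + LinearMap.mulLeft K x.c),
  y.ph ∘ₗ LinearMap.mulLeft K x.a,
  y.pf x.f + y.ph x.h⟩⟩

@[simp] theorem zero_a : (0 : TA K S M).a = 0 := rfl
@[simp] theorem zero_d : (0 : TA K S M).d = 0 := rfl
@[simp] theorem zero_c : (0 : TA K S M).c = 0 := rfl
@[simp] theorem zero_f : (0 : TA K S M).f = 0 := rfl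
@[simp] theorem zero_h : (0 : TA K S M).h = 0 := rfl
@[simp] theorem zero_pf : (0 : TA K S M).pf = 0 := rfl
@[simp] theorem zero_ph : (0 : TA K S M).ph = 0 := rfl
@[simp] theorem zero_m : (0 : TA K S M).m = 0 := rfl
@[simp] theorem add_a (x y : TA K S M) : (x + y).a = x.a + y.a := rfl
@[simp] theorem add_d (x y : TA K S M) : (x + y).d = x.d + y.d := rfl
@[simp] theorem add_c (x y : TA K S M) : (x + y).c = x.c + y.c := rfl
@[simp] theorem add_f (x y : TA K S M) : (x + y).f = x.f + y.f := rfl
@[simp] theorem add_h (x y : TA K S M) : (x + y).h = x.h + y.h := rfl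
@[simp] theorem add_pf (x y : TA K S M) : (x + y).pf = x.pf + y.pf := rfl
@[simp] theorem add_ph (x y : TA K S M) : (x + y).ph = x.ph + y.ph := rfl
@[simp] theorem add_m (x y : TA K S M) : (x + y).m = x.m + y.m := rfl
@[simp] theorem neg_a (x : TA K S M) : (-x).a = -x.a := rfl
@[simp] theorem neg_d (x : TA K S M) : (-x).d = -x.d := rfl
@[simp] theorem neg_c (x : TA K S M) : (-x).c = -x.c := rfl
@[simp] theorem neg_f (x : TA K S M) : (-x).f = -x.f := rfl
@[simp] theorem neg_h (x : TA K S M) : (-x).h = -x.h := rfl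
@[simp] theorem neg_pf (x : TA K S M) : (-x).pf = -x.pf := rfl
@[simp] theorem neg_ph (x : TA K S M) : (-x).ph = -x.ph := rfl
@[simp] theorem neg_m (x : TA K S M) : (-x).m = -x.m := rfl
@[simp] theorem sub_a (x y : TA K S M) : (x - y).a = x.a - y.a := rfl
@[simp] theorem sub_d (x y : TA K S M) : (x - y).d = x.d - y.d := rfl
@[simp] theorem sub_c (x y : TA K S M) : (x - y).c = x.c - y.c := rfl
@[simp] theorem sub_f (x y : TA K S M) : (x - y).f = x.f - y.f := rfl
@[simp] theorem sub_h (x y : TA K S M) : (x - y).h = x.h - y.h := rfl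
@[simp] theorem sub_pf (x y : TA K S M) : (x - y).pf = x.pf - y.pf := rfl
@[simp] theorem sub_ph (x y : TA K S M) : (x - y).ph = x.ph - y.ph := rfl
@[simp] theorem sub_m (x y : TA K S M) : (x - y).m = x.m - y.m := rfl
@[simp] theorem smul_a (r : K) (x : TA K S M) : (r • x).a = r • x.a := rfl
@[simp] theorem smul_d (r : K) (x : TA K S M) : (r • x).d = r • x.d := rfl
@[simp] theorem smul_c (r : K) (x : TA K S M) : (r • x).c = r • x.c := rfl
@[simp] theorem smul_f (r : K) (x : TA K S M) : (r • x).f = r • x.f := rfl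
@[simp] theorem smul_h (r : K) (x : TA K S M) : (r • x).h = r • x.h := rfl
@[simp] theorem smul_pf (r : K) (x : TA K S M) : (r • x).pf = r • x.pf := rfl
@[simp] theorem smul_ph (r : K) (x : TA K S M) : (r • x).ph = r • x.ph := rfl
@[simp] theorem smul_m (r : K) (x : TA K S M) : (r • x).m = r • x.m := rfl
@[simp] theorem mul_a (x y : TA K S M) : (x * y).a = x.a * y.a := rfl
@[simp] theorem mul_d (x y : TA K S M) : (x * y).d = y.a • x.d + x.a • y.d := rfl
@[simp] theorem mul_c (x y : TA K S M) : (x * y).c = y.a * x.c + x.a * y.c + y.d x.a := rfl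
@[simp] theorem mul_f (x y : TA K S M) : (x * y).f = x.f * y.a := rfl
@[simp] theorem mul_h (x y : TA K S M) : (x * y).h = x.h * y.a + y.d x.f + y.c * x.f := rfl
@[simp] theorem mul_pf (x y : TA K S M) : (x * y).pf =
  y.pf ∘ₗ LinearMap.mulLeft K x.a + y.ph ∘ₗ ((x.d : S →ₗ[K] S) + LinearMap.mulLeft K x.c) := rfl
@[simp] theorem mul_ph (x y : TA K S M) : (x * y).ph = y.ph ∘ₗ LinearMap.mulLeft K x.a := rfl
@[simp] theorem mul_m (x y : TA K S M) : (x * y).m = y.pf x.f + y.ph x.h := rfl

instance : AddCommGroup (TA K S M) where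
  add_assoc x y z := by ext <;> simp [add_assoc]
  zero_add x := by ext <;> simp
  add_zero x := by ext <;> simp
  nsmul := nsmulRec
  zsmul := zsmulRec
  neg_add_cancel x := by ext <;> simp
  add_comm x y := by ext <;> simp [add_comm]
  sub_eq_add_neg x y := by ext <;> simp [sub_eq_add_neg]

instance : Module K (TA K S M) where
  one_smul x := by ext <;> simp
  mul_smul r s x := by ext <;> simp [mul_smul]
  smul_zero r := by ext <;> simp
  smul_add r x y := by ext <;> simp
  add_smul r s x := by ext <;> simp [add_smul]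
  zero_smul x := by ext <;> simp

theorem assoc' (x y z : TA K S M) : x * y * z = x * (y * z) := by
  ext
  · simp only [mul_a]; ring
  · simp only [mul_d, mul_a, Derivation.add_apply, Derivation.smul_apply, smul_eq_mul]
    ring
  · simp only [mul_c, mul_a, mul_d, Derivation.add_apply, Derivation.smul_apply, smul_eq_mul, Derivation.leibniz]
    ring
  · simp only [mul_f, mul_a]; ring
  · simp only [mul_h, mul_a, mul_f, mul_d, mul_c, Derivation.add_apply, Derivation.smul_apply, smul_eq_mul,
      Derivation.leibniz]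
    ring
  · rename_i s
    simp only [mul_pf, mul_ph, mul_a, mul_d, mul_c, LinearMap.add_apply, LinearMap.comp_apply, LinearMap.mulLeft_apply,
      Derivation.coe_add_linearMap, Derivation.coeFn_coe, smul_eq_mul,
      Derivation.leibniz, map_add, Derivation.coe_smul_linearMap, LinearMap.smul_apply]
    have e1 : x.a * y.a * s = y.a * (x.a * s) := by ring
    have e2 : y.a * x.d s + x.a * y.d s + (y.a * x.c + x.a * y.c + y.d x.a) * s =
      (x.a * y.d s + s * y.d x.a) + y.c * (x.a * s) + (y.a * x.d s + y.a * (x.c * s)) := by ring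
    have e3 : z.ph (y.a * x.d s + x.a * y.d s) + z.ph ((y.a * x.c + x.a * y.c + y.d x.a) * s) =
      z.ph ((x.a * y.d s + s * y.d x.a) + y.c * (x.a * s) + (y.a * x.d s + y.a * (x.c * s))) := by
      rw [← map_add, e2]
    rw [e1, ← map_add z.ph (y.a * x.d s), e3]
    simp only [map_add]
    abel
  · rename_i s
    simp only [mul_ph, mul_a, LinearMap.comp_apply, LinearMap.mulLeft_apply]
    congr 1
    ring
  · simp only [mul_m, mul_pf, mul_ph, mul_f, mul_h, LinearMap.add_apply, LinearMap.comp_apply, LinearMap.mulLeft_apply,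
      Derivation.coeFn_coe, map_add]
    rw [mul_comm y.a x.f, mul_comm y.a x.h]
    abel

instance : NonUnitalRing (TA K S M) where
  left_distrib x y z := by
    ext
    · simp only [mul_a, add_a]; ring
    · simp only [mul_d, add_d, add_a, Derivation.add_apply, Derivation.smul_apply, smul_eq_mul]; ring
    · simp only [mul_c, add_c, add_a, add_d, Derivation.add_apply]; ring
    · simp only [mul_f, add_f, add_a]; ring
    · simp only [mul_h, add_h, add_a, add_d, add_c, Derivation.add_apply]; ring
    · simp only [mul_pf, add_pf, add_ph, LinearMap.add_apply, LinearMap.comp_apply]; abel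
    · simp only [mul_ph, add_ph, LinearMap.add_apply, LinearMap.comp_apply]
    · simp only [mul_m, add_m, add_pf, add_ph, LinearMap.add_apply]; abel
  right_distrib x y z := by
    ext
    · simp only [mul_a, add_a]; ring
    · simp only [mul_d, add_d, add_a, Derivation.add_apply, Derivation.smul_apply, smul_eq_mul]; ring
    · simp only [mul_c, add_c, add_a, map_add]; ring
    · simp only [mul_f, add_f]; ring
    · simp only [mul_h, add_h, add_f, map_add]; ring
    · simp only [mul_pf, add_pf, add_a, add_d, add_c, LinearMap.add_apply, LinearMap.comp_apply, LinearMap.mulLeft_apply,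
        Derivation.coeFn_coe, Derivation.add_apply, add_mul, map_add]; abel
    · simp only [mul_ph, add_ph, add_a, LinearMap.add_apply, LinearMap.comp_apply, LinearMap.mulLeft_apply, add_mul, map_add]
    · simp only [mul_m, add_m, add_f, add_h, map_add]; abel
  zero_mul x := by
    ext
    · simp
    · simp
    · simp
    · simp
    · simp
    · simp only [mul_pf, zero_pf, zero_a, zero_d, zero_c, LinearMap.add_apply, LinearMap.comp_apply,
        LinearMap.mulLeft_apply, Derivation.coeFn_coe, Derivation.zero_apply, zero_mul, add_zero, map_zero,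
        LinearMap.zero_apply]
    · simp
    · simp
  mul_zero x := by
    ext <;> simp
  mul_assoc := assoc'

instance : IsScalarTower K (TA K S M) (TA K S M) where
  smul_assoc r x y := by
    change (r • x) * y = r • (x * y)
    ext
    · simp
    · simp only [mul_d, smul_a, smul_d, Derivation.add_apply, Derivation.smul_apply, smul_eq_mul, Algebra.smul_def]; ring
    · simp only [mul_c, smul_a, smul_c, Derivation.map_smul]
      simp only [Algebra.smul_def]; ring
    · simp
    · simp only [mul_h, smul_f, smul_h, Derivation.map_smul]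
      simp only [Algebra.smul_def]; ring
    · simp only [mul_pf, smul_pf, smul_a, smul_d, smul_c, LinearMap.add_apply, LinearMap.comp_apply, LinearMap.mulLeft_apply,
        Derivation.coeFn_coe, Derivation.smul_apply, smul_mul_assoc, LinearMap.smul_apply, map_add, map_smul, smul_add]
    · simp only [mul_ph, smul_ph, smul_a, LinearMap.comp_apply, LinearMap.mulLeft_apply, smul_mul_assoc,
        LinearMap.smul_apply, map_smul]
    · simp only [mul_m, smul_m, smul_f, smul_h, map_smul, smul_add]

instance : SMulCommClass K (TA K S M) (TA K S M) where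
  smul_comm r x y := by
    change r • (x * y) = x * (r • y)
    ext
    · simp
    · simp only [mul_d, smul_a, smul_d, Derivation.add_apply, Derivation.smul_apply, smul_eq_mul, Algebra.smul_def]; ring
    · simp only [mul_c, smul_a, smul_c, smul_d, Derivation.smul_apply, Algebra.smul_def]; ring
    · simp
    · simp only [mul_h, smul_a, smul_h, smul_d, smul_c, Derivation.smul_apply, Algebra.smul_def]; ring
    · simp only [mul_pf, smul_pf, smul_ph, LinearMap.add_apply, LinearMap.comp_apply, LinearMap.smul_apply, smul_add]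
    · simp only [mul_ph, smul_ph, LinearMap.comp_apply, LinearMap.smul_apply]
    · simp only [mul_m, smul_m, smul_pf, smul_ph, LinearMap.smul_apply, smul_add]

end TA

open TA

theorem inW : InW (TA K S M) := by
  have hc : ∀ y z : TA K S M, (y * z - z * y).a = 0 ∧ (y * z - z * y).d = 0 := by
    intro y z
    constructor
    · simp only [sub_a, mul_a]; ring
    · ext s
      simp only [sub_d, mul_d, Derivation.sub_apply, Derivation.add_apply, Derivation.smul_apply, smul_eq_mul,
        Derivation.zero_apply]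
      ring
  -- products `x T v` with the middle part of `T` zero
  have hT : ∀ x T v : TA K S M, T.a = 0 → T.d = 0 → T.c = 0 → x * T * v = 0 := by
    intro x T v h1 h2 h3
    ext
    · simp [h1]
    · simp [h1, h2]
    · simp [h1, h2, h3]
    · simp [h1]
    · simp [h1, h2, h3]
    · simp [h1, h2, h3]
    · simp [h1]
    · simp [h1, h2, h3]
  constructor
  · intro x y z t u v
    have h1 := hc y z
    have h2 := hc t u
    have e : x * (y * z - z * y) * (t * u - u * t) * v = x * ((y * z - z * y) * (t * u - u * t)) * v := by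
      rw [mul_assoc x]
    rw [e]
    refine hT _ _ _ ?_ ?_ ?_
    · rw [mul_a, h1.1, zero_mul]
    · rw [mul_d, h1.2, h2.2, smul_zero, smul_zero, add_zero]
    · rw [mul_c, h1.1, h2.1, h2.2]
      simp
  · intro x y z t u
    have h1 := hc y z
    refine hT _ _ _ ?_ ?_ ?_
    · rw [sub_a, mul_a, mul_a, h1.1, zero_mul, mul_zero, sub_zero]
    · rw [sub_d, mul_d, mul_d, h1.1, h1.2]
      simp
    · rw [sub_c, mul_c, mul_c, h1.1, h1.2]
      simp

theorem t : StmTri := by
  intro K _ S _ _ M _ _
  refine ⟨TA K S M, inferInstance, inferInstance, inferInstance, inferInstance,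
    fun a δ c => ⟨a, δ, c, 0, 0, 0, 0, 0⟩, fun f h => ⟨0, 0, 0, f, h, 0, 0, 0⟩,
    { toFun := fun φ => ⟨0, 0, 0, 0, 0, 0, φ, 0⟩, map_zero' := rfl, map_add' := ?_ },
    { toFun := fun φ => ⟨0, 0, 0, 0, 0, φ, 0, 0⟩, map_zero' := rfl, map_add' := ?_ },
    fun m => ⟨0, 0, 0, 0, 0, 0, 0, m⟩, inW, rfl, ?_, ?_, ?_, rfl, ?_, ?_, ?_, ?_, ?_⟩
  · intro φ ψ
    ext <;> simp
  · intro φ ψ
    ext <;> simp
  · intro m m' h
    exact congrArg TA.m h
  · intro a δ c a' δ' c'
    ext <;> simp
  · intro a δ c a' δ' c'
    ext <;> simp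
  · intro f h a δ c
    ext <;> simp
  · intro a c δ φ
    ext <;> simp
  · intro c δ φ
    ext <;> simp
  · intro f h φ
    ext <;> simp
  · intro f h φ
    ext <;> simp

end Pool.Agent.Y986.WK.Tri
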