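import Pool.Agent.Y817.WK.Stm

set_option autoImplicit false

namespace Pool.Agent.Y986.WK

open Pool.Agent.Y817.WK

variable {V K : Type} [Fintype V] [DecidableEq V] [Field K]

omit [Fintype V] [DecidableEq V] in
theorem coeff_zsm (m : ℤ) (f : MvPolynomial V K) (a : V →₀ ℕ) :
    MvPolynomial.coeff a (m • f) = (m : K) * MvPolynomial.coeff a f := by
  rw [zsmul_eq_mul, show ((m : MvPolynomial V K)) = MvPolynomial.C (m : K) by simp, MvPolynomial.coeff_C_mul]

omit [Fintype V] in
theorem coeff_euler (i : V) (f : MvPolynomial V K) (a : V →₀ ℕ) :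
    MvPolynomial.coeff a (euler i f) = (a i : K) * MvPolynomial.coeff a f := by
  induction f using MvPolynomial.induction_on' with
  | monomial u r =>
    unfold euler
    rw [MvPolynomial.pderiv_monomial, MvPolynomial.X, MvPolynomial.monomial_mul, one_mul, MvPolynomial.coeff_monomial,
      MvPolynomial.coeff_monomial]
    by_cases hu : u i = 0
    · rw [hu]
      by_cases ha : u = a
      · subst ha
        rw [hu]
        simp
      · rw [if_neg ha]
        simp
    · have e : (Finsupp.single i 1 + (u - Finsupp.single i 1) : V →₀ ℕ) = u := by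
        ext j
        by_cases hj : j = i
        · subst hj
          simp only [Finsupp.coe_add, Finsupp.coe_tsub, Pi.add_apply, Pi.sub_apply, Finsupp.single_eq_same]
          omega
        · simp [Ne.symm hj]
      rw [e]
      by_cases ha : u = a
      · subst ha
        rw [if_pos rfl, if_pos rfl]
        ring
      · rw [if_neg ha, if_neg ha, mul_zero]
  | add p q hp hq =>
    have e : euler i (p + q) = euler i p + euler i q := by
      unfold euler
      rw [map_add, mul_add]
    rw [e, MvPolynomial.coeff_add, hp, hq, MvPolynomial.coeff_add, mul_add]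

/-- the evaluation -/
noncomputable def phi (n : V) : MvPolynomial V K →ₐ[K] Polynomial K :=
  MvPolynomial.aeval (fun i => if i = n then Polynomial.X else 1)

theorem phi_monomial (n : V) (a : V →₀ ℕ) (r : K) :
    phi n (MvPolynomial.monomial a r) = Polynomial.C r * Polynomial.X ^ (a n) := by
  unfold phi
  rw [MvPolynomial.aeval_monomial]
  congr 1
  rw [Finsupp.prod_fintype _ _ (fun i => pow_zero _)]
  rw [Finset.prod_eq_single n]
  · rw [if_pos rfl]
  · intro b _ hb
    rw [if_neg hb, one_pow]
  · intro h
    exact absurd (Finset.mem_univ n) h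

theorem t : StmPde := by
  intro K _ _ V ι _ _ _ n Q c f g h h1 h2 h3
  have e1 : phi n f = Polynomial.X ^ c := by
    have := congrArg (phi (K := K) n) h1
    rw [map_add, map_sum, map_pow] at this
    have hz : ∑ x, phi n (if x = n then 0 else (1 - MvPolynomial.X x) * h x) = 0 := by
      refine Finset.sum_eq_zero fun i _ => ?_
      split_ifs with hi
      · exact map_zero _
      · rw [map_mul, map_sub, map_one]
        have : phi (K := K) n (MvPolynomial.X i) = 1 := by
          unfold phi
          rw [MvPolynomial.aeval_X, if_neg hi]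
        rw [this, sub_self, zero_mul]
    rw [hz, add_zero] at this
    rw [this]
    congr 1
    unfold phi
    rw [MvPolynomial.aeval_X, if_pos rfl]
  -- an exponent
  have e2 : ∃ a ∈ f.support, a n = c := by
    by_contra hcon
    push Not at hcon
    have e3 : phi n f = ∑ a ∈ f.support, Polynomial.C (MvPolynomial.coeff a f) * Polynomial.X ^ (a n) := by
      conv_lhs => rw [MvPolynomial.as_sum f]
      rw [map_sum]
      exact Finset.sum_congr rfl fun a _ => phi_monomial n a _
    have e4 : (phi n f).coeff c = 0 := by
      rw [e3, Polynomial.finsetSum_coeff]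
      refine Finset.sum_eq_zero fun a ha => ?_
      rw [Polynomial.coeff_C_mul, Polynomial.coeff_X_pow, if_neg (fun h => hcon a ha h.symm), mul_zero]
    rw [e1, Polynomial.coeff_X_pow, if_pos rfl] at e4
    exact one_ne_zero e4
  obtain ⟨a, ha, hac⟩ := e2
  have hne : MvPolynomial.coeff a f ≠ 0 := MvPolynomial.mem_support_iff.mp ha
  refine ⟨fun v => a v, hac, fun s => ?_⟩
  have h4 := congrArg (MvPolynomial.coeff a) (h3 s)
  rw [MvPolynomial.coeff_add, MvPolynomial.coeff_sum, MvPolynomial.coeff_zero] at h4
  have h5 : ∀ k : V, MvPolynomial.coeff a ((Q s).B k • g k + ∑ i, (Q s).A i k • euler i (g k)) =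
      (((Q s).B k : K) * (a k : K) + ∑ i, ((Q s).A i k : K) * ((a i : K) * (a k : K))) * MvPolynomial.coeff a f := by
    intro k
    rw [MvPolynomial.coeff_add, MvPolynomial.coeff_sum, add_mul, Finset.sum_mul]
    congr 1
    · rw [coeff_zsm, h2 k, coeff_euler]
      ring
    · refine Finset.sum_congr rfl fun i _ => ?_
      rw [coeff_zsm, coeff_euler, h2 k, coeff_euler]
      ring
  rw [Finset.sum_congr rfl fun k _ => h5 k, coeff_zsm, ← Finset.sum_mul, ← add_mul] at h4
  have h6 := (mul_eq_zero.mp h4).resolve_right hne
  have h7 : (((Q s).val (fun v => ((a v : ℕ) : ℤ)) : ℤ) : K) = 0 := by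
    rw [← h6]
    unfold Quad.val
    push_cast
    rw [Finset.sum_add_distrib]
    have e5 : ∑ x, ∑ x_1, ((Q s).A x x_1 : K) * (a x : K) * (a x_1 : K) =
        ∑ x, ∑ i, ((Q s).A i x : K) * ((a i : K) * (a x : K)) := by
      rw [Finset.sum_comm]
      exact Finset.sum_congr rfl fun x _ => Finset.sum_congr rfl fun i _ => by ring
    rw [e5]
    ring
  exact_mod_cast h7

end Pool.Agent.Y986.WK
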